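import Pool.Agent.Helper45.AM.GoalsA
import Pool.Agent.Helper15.AM.GoalsG

/-!
Project AM (MP_cc6379_al), packet AM-AO: compatibility of the preorders with `W_P`.
-/

set_option autoImplicit false

open LaurentPolynomial Pool.Agent.Helper15.RA Pool.Agent.Helper45.AM

noncomputable section

namespace Pool.Agent.Helper74.AM

variable {S W H : Type} [Group W] [Ring H] [Algebra ℤ[T;T⁻¹] H]

/-- The span of the `c_(x g')`, `x ∈ X_P`, `g' ∈ W_P`, `g' ≤_L g`. -/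
def VV (X : Base S W H) (P : Set S) (g : W) (Z : H) : Prop :=
  ∀ z, X.b.repr Z z ≠ 0 → ∃ x' g', XR X.cs P x' ∧ g' ∈ par X.cs P ∧ z = x' * g' ∧ X.leL P g' g

section

variable {X : Base S W H} {P : Set S} {g : W}

theorem VV.zero : VV X P g 0 := by
  intro z hz
  rw [map_zero, Finsupp.zero_apply] at hz
  exact absurd rfl hz

theorem VV.add {Y Z : H} (hY : VV X P g Y) (hZ : VV X P g Z) : VV X P g (Y + Z) := by
  intro z hz
  by_cases h : X.b.repr Y z = 0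
  · refine hZ z fun h2 => hz ?_
    rw [map_add, Finsupp.add_apply, h, h2, add_zero]
  · exact hY z h

theorem VV.smul {Z : H} (p : ℤ[T;T⁻¹]) (hZ : VV X P g Z) : VV X P g (p • Z) := by
  intro z hz
  refine hZ z fun h => hz ?_
  rw [map_smul, Finsupp.smul_apply, h, smul_zero]

theorem VV.sum {ι : Type*} (s : Finset ι) (f : ι → H) (h : ∀ i ∈ s, VV X P g (f i)) :
    VV X P g (∑ i ∈ s, f i) := by
  classical
  induction s using Finset.induction_on with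
  | empty => exact VV.zero
  | insert i s hi ih =>
    rw [Finset.sum_insert hi]
    exact (h i (Finset.mem_insert_self i s)).add (ih fun j hj => h j (Finset.mem_insert_of_mem hj))

end

theorem leL_trans (X : Base S W H) (P : Set S) {z y w : W} (h1 : X.leL P z y) (h2 : X.leL P y w) :
    X.leL P z w :=
  Relation.ReflTransGen.trans h2 h1

theorem expand_t (X : Base S W H) (Y : H) : Y = ∑ w ∈ (X.D.t.repr Y).support, X.D.t.repr Y w • X.D.t w :=
  (X.D.t.linearCombination_repr Y).symm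

theorem expand_c (X : Base S W H) (Y : H) : Y = ∑ w ∈ (X.b.repr Y).support, X.b.repr Y w • X.D.c w := by
  conv_lhs => rw [← X.b.linearCombination_repr Y]
  rw [Finsupp.linearCombination_apply, Finsupp.sum]
  exact Finset.sum_congr rfl fun w _ => by rw [X.hb]

theorem h_a_o (hGA : Pool.Agent.Helper15.AM.G_PA) (hGC : Pool.Agent.Helper15.AM.G_PC) (hB : A_B) (hS : A_S)
    (hM : A_M) (hK : A_K) : Pool.Agent.Helper45.AM.A_O := by
  intro S W H _ _ _ X P Q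
  obtain ⟨b1, -, -, -, -, -⟩ := hB S W H X
  obtain ⟨-, -, -, -, s5, s6, -⟩ := hS S W H X P
  obtain ⟨-, m2, m3, -, m5, m6⟩ := hM S W H X
  obtain ⟨-, g2, g3⟩ := hGA S W X.M X.cs P
  obtain ⟨u1, -⟩ := hGC S W X.M X.cs P
  have hK' := hK S W H X P
  -- (a)
  have ha : ∀ g x g', XR X.cs P x → g' ∈ par X.cs P → X.leL P g' g → VV X P g (X.D.t x * X.D.c g') := by
    intro g x g' hx hg' hle z hz
    obtain ⟨-, -, k3, -⟩ := hK' x g' hx hg'
    by_cases h : z = x * g'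
    · exact ⟨x, g', hx, hg', h, hle⟩
    · obtain ⟨x', g'', h1, h2, h3, -, h5⟩ := k3 z h hz
      exact ⟨x', g'', h1, h2, h3, leL_trans X P h5 hle⟩
  -- (b)
  have hb : ∀ g w g', g' ∈ par X.cs P → X.leL P g' g → VV X P g (X.D.t w * X.D.c g') := by
    intro g w g' hg' hle
    obtain ⟨x, k, hk, hx, rfl⟩ := g2 w
    rw [← X.D.mul x k (g3 x hx k hk), mul_assoc]
    have h1 : X.D.t x * (X.D.t k * X.D.c g') = ∑ u ∈ (X.b.repr (X.D.t k)).support,
        X.b.repr (X.D.t k) u • ∑ z ∈ (X.h u g').support, X.h u g' z • (X.D.t x * X.D.c z) := by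
      conv_lhs => rw [expand_c X (X.D.t k)]
      rw [Finset.sum_mul, Finset.mul_sum]
      refine Finset.sum_congr rfl fun u _ => ?_
      rw [smul_mul_assoc, mul_smul_comm, X.isH u g', Finsupp.sum, Finset.mul_sum]
      congr 1
      exact Finset.sum_congr rfl fun z _ => by rw [mul_smul_comm]
    rw [h1]
    refine VV.sum _ _ fun u hu => VV.smul _ (VV.sum _ _ fun z hz => VV.smul _ ?_)
    have hu' : u ∈ par X.cs P := s5 k hk u (Finsupp.mem_support_iff.1 hu)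
    have hz' : z ∈ par X.cs P := s6 u hu' g' hg' z (Finsupp.mem_support_iff.1 hz)
    exact ha g x z hx hz' (leL_trans X P (Relation.ReflTransGen.single ⟨u, hu', Finsupp.mem_support_iff.1 hz⟩) hle)
  -- (c)
  have hc : ∀ g g' (Y : H), g' ∈ par X.cs P → X.leL P g' g → VV X P g (Y * X.D.c g') := by
    intro g g' Y hg' hle
    conv =>
      arg 4
      rw [expand_t X Y]
    rw [Finset.sum_mul]
    refine VV.sum _ _ fun w _ => ?_
    rw [smul_mul_assoc]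
    exact VV.smul _ (hb g w g' hg' hle)
  have hd : ∀ x g (Y : H), XR X.cs P x → g ∈ par X.cs P → VV X P g (Y * X.D.c (x * g)) := by
    intro x g Y hx hg
    obtain ⟨-, -, -, p, -, hp2, hp3⟩ := hK' x g hx hg
    rw [hp3, mul_add, ← mul_assoc, Finsupp.sum, Finset.mul_sum]
    refine VV.add (hc g g _ hg Relation.ReflTransGen.refl) (VV.sum _ _ fun r hr => ?_)
    rw [mul_smul_comm, ← mul_assoc]
    obtain ⟨-, h2, -, h4⟩ := hp2 r hr
    exact VV.smul _ (hc g r.2 _ h2 h4)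
  -- clause 1
  have c1 : ∀ x g x' g', XR X.cs P x → g ∈ par X.cs P → XR X.cs P x' → g' ∈ par X.cs P →
      X.leL Q (x' * g') (x * g) → X.leL P g' g := by
    intro x g x' g' hx hg hx' hg' hle
    have key : ∀ z, X.leL Q z (x * g) →
        ∃ x₁ g₁, XR X.cs P x₁ ∧ g₁ ∈ par X.cs P ∧ z = x₁ * g₁ ∧ X.leL P g₁ g := by
      intro z hz
      induction hz with
      | refl => exact ⟨x, g, hx, hg, rfl, Relation.ReflTransGen.refl⟩
      | tail _ hstep ih =>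
        obtain ⟨x₁, g₁, h1, h2, h3, h4⟩ := ih
        obtain ⟨u, -, hne⟩ := hstep
        rw [h3, ← b1] at hne
        obtain ⟨x₂, g₂, h5, h6, h7, h8⟩ := hd x₁ g₁ (X.D.c u) h1 h2 _ hne
        exact ⟨x₂, g₂, h5, h6, h7, leL_trans X P h8 h4⟩
    obtain ⟨x₁, g₁, h1, h2, h3, h4⟩ := key _ hle
    obtain ⟨-, h5⟩ := u1 x' x₁ g' g₁ hx' h1 hg' h2 h3
    rw [h5]
    exact h4
  -- coordinates
  have e1 : ∀ a κ₂ x κ, XR X.cs P a → κ₂ ∈ par X.cs P → XR X.cs P x → κ ∈ par X.cs P →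
      X.cs.length x ≤ X.cs.length a → ¬ (x = a ∧ κ = κ₂) →
      X.b.repr (X.D.t x * X.D.c κ) (a * κ₂) = 0 := by
    intro a κ₂ x κ ha' hκ₂ hx hκ hl hne
    obtain ⟨-, -, k3, -⟩ := hK' x κ hx hκ
    by_contra hnz
    have h1 : a * κ₂ ≠ x * κ := by
      intro h
      obtain ⟨h2, h3⟩ := u1 a x κ₂ κ ha' hx hκ₂ hκ h
      exact hne ⟨h2.symm, h3.symm⟩
    obtain ⟨x', g', h2, h3, h4, h5, -⟩ := k3 _ h1 hnz
    obtain ⟨h6, -⟩ := u1 a x' κ₂ g' ha' h2 hκ₂ h3 h4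
    rw [← h6] at h5
    omega
  have e2 : ∀ a κ₂ u x κ, XR X.cs P a → κ₂ ∈ par X.cs P → u ∈ par X.cs P → XR X.cs P x → κ ∈ par X.cs P →
      X.b.repr (X.D.t x * X.D.c κ * X.D.c u) (a * κ₂) =
        ∑ z ∈ (X.h κ u).support, X.h κ u z * X.b.repr (X.D.t x * X.D.c z) (a * κ₂) := by
    intro a κ₂ u x κ _ _ _ _ _
    rw [mul_assoc, X.isH κ u, Finsupp.sum, Finset.mul_sum, map_sum, Finsupp.finsetSum_apply]
    refine Finset.sum_congr rfl fun z _ => ?_
    rw [mul_smul_comm, map_smul, Finsupp.smul_apply, smul_eq_mul]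
  have c2 : ∀ a κ₁ u κ₂, XR X.cs P a → κ₁ ∈ par X.cs P → u ∈ par X.cs P → κ₂ ∈ par X.cs P →
      X.h (a * κ₁) u (a * κ₂) = X.h κ₁ u κ₂ := by
    intro a κ₁ u κ₂ ha' hκ₁ hu hκ₂
    obtain ⟨-, -, -, p, -, hp2, hp3⟩ := hK' a κ₁ ha' hκ₁
    rw [← b1, hp3, add_mul, map_add, Finsupp.add_apply, e2 a κ₂ u a κ₁ ha' hκ₂ hu ha' hκ₁]
    have h1 : X.b.repr ((p.sum fun r q => q • (X.D.t r.1 * X.D.c r.2)) * X.D.c u) (a * κ₂) = 0 := by
      rw [Finsupp.sum, Finset.sum_mul, map_sum, Finsupp.finsetSum_apply]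
      refine Finset.sum_eq_zero fun r hr => ?_
      obtain ⟨q1, q2, q3, -⟩ := hp2 r hr
      rw [smul_mul_assoc, map_smul, Finsupp.smul_apply, e2 a κ₂ u r.1 r.2 ha' hκ₂ hu q1 q2,
        Finset.sum_eq_zero, smul_zero]
      intro z hz
      rw [e1 a κ₂ r.1 z ha' hκ₂ q1 (s6 r.2 q2 u hu z (Finsupp.mem_support_iff.1 hz)) q3.le, mul_zero]
      rintro ⟨h, -⟩
      rw [h] at q3
      exact lt_irrefl _ q3
    rw [h1, add_zero, Finset.sum_eq_single κ₂]
    · rw [(hK' a κ₂ ha' hκ₂).1, mul_one]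
    · intro z hz hne
      rw [e1 a κ₂ a z ha' hκ₂ ha' (s6 κ₁ hκ₁ u hu z (Finsupp.mem_support_iff.1 hz)) le_rfl fun h => hne h.2,
        mul_zero]
    · intro h
      rw [Finsupp.notMem_support_iff.1 h, zero_mul]
  have c3 : P ⊆ Q → ∀ a κ κ', XR X.cs P a → κ ∈ par X.cs P → X.leR P κ' κ → X.leR Q (a * κ') (a * κ) := by
    intro hPQ a κ κ' ha' hκ hle
    have hmono : par X.cs P ≤ par X.cs Q := Subgroup.closure_mono (Set.image_mono hPQ)
    have key : κ' ∈ par X.cs P ∧ X.leR Q (a * κ') (a * κ) := by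
      induction hle with
      | refl => exact ⟨hκ, Relation.ReflTransGen.refl⟩
      | tail _ hstep ih =>
        obtain ⟨u, hu, hne⟩ := hstep
        have h1 := s6 _ ih.1 u hu _ hne
        refine ⟨h1, Relation.ReflTransGen.tail ih.2 ⟨u, hmono hu, ?_⟩⟩
        rw [c2 a _ u _ ha' ih.1 hu h1]
        exact hne
    exact key.2
  refine ⟨c1, c2, c3, ?_, ?_, ?_⟩
  · intro g y g' y' hg hy hg' hy' hle
    rw [m5, mul_inv_rev, mul_inv_rev] at hle
    rw [m5]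
    exact c1 y⁻¹ g⁻¹ y'⁻¹ g'⁻¹ ((m3 P y).1 hy) (inv_mem hg) ((m3 P y').1 hy') (inv_mem hg') hle
  · intro b κ₁ u κ₂ hb' hκ₁ hu hκ₂
    rw [m2 u (κ₁ * b), mul_inv_rev, mul_inv_rev, m2 u κ₁]
    exact c2 b⁻¹ κ₁⁻¹ u⁻¹ κ₂⁻¹ ((m3 P b).1 hb') (inv_mem hκ₁) (inv_mem hu) (inv_mem hκ₂)
  · intro hPQ b κ κ' hb' hκ hle
    rw [m6] at hle
    rw [m6, mul_inv_rev, mul_inv_rev]
    exact c3 hPQ b⁻¹ κ⁻¹ κ'⁻¹ ((m3 P b).1 hb') (inv_mem hκ) hle

end Pool.Agent.Helper74.AM
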